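import Mathlib
import Pool.Agent.H.MP_54c2ef_al.ThmC

namespace Pool.Agent.Results.MP_54c2ef_al.GoodIsAut

/-- Every good endomorphism of the free associative algebra over any field is bijective
(hence an automorphism).  Both composition orders of the factorisation are allowed. -/
theorem result (K : Type*) [Field K] (n : ℕ)
    (φ : FreeAlgebra K (Fin n) →ₐ[K] FreeAlgebra K (Fin n))
    (hgood : ∀ m : ℕ, 1 ≤ m →
      ∃ (ψ : FreeAlgebra K (Fin n) →ₐ[K] FreeAlgebra K (Fin n))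
        (θ : FreeAlgebra K (Fin n) ≃ₐ[K] FreeAlgebra K (Fin n)),
        (φ = ψ.comp θ.toAlgHom ∨ φ = θ.toAlgHom.comp ψ) ∧
        ∀ i, ψ (FreeAlgebra.ι K i) - FreeAlgebra.ι K i ∈ Submodule.span K
          {a | ∃ l : List (Fin n), m ≤ l.length ∧ a = (l.map (FreeAlgebra.ι K)).prod}) :
    ∃ e : FreeAlgebra K (Fin n) ≃ₐ[K] FreeAlgebra K (Fin n), e.toAlgHom = φ :=
  ⟨AlgEquiv.ofBijective φ (Pool.Agent.H.MP_54c2ef_al.bij_of_jac_unit φ
    (Pool.Agent.H.MP_54c2ef_al.jac_unit φ hgood)), rfl⟩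

end Pool.Agent.Results.MP_54c2ef_al.GoodIsAut
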